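import Pool.Agent.N229.PG.Stm

/-! Project PG (problem MP_345ce5_an), leaf S2: Hoelder difference of `V` (helper806). -/

set_option autoImplicit false

namespace PG

open Complex Filter Topology Metric Set

theorem s2_pow {α d : ℝ} (h0 : 0 < α) (h1 : α < 1) (hd : 0 ≤ d) (hd2 : d ≤ 2) :
    d ≤ 2 * d ^ α := by
  rcases hd.eq_or_lt with h | h
  · subst h
    rw [Real.zero_rpow h0.ne']
    simp
  · have e1 : d = d ^ α * d ^ (1 - α) := by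
      rw [← Real.rpow_add h, add_sub_cancel, Real.rpow_one]
    have e2 : d ^ (1 - α) ≤ 2 := by
      calc d ^ (1 - α) ≤ 2 ^ (1 - α) := Real.rpow_le_rpow hd hd2 (by linarith)
        _ ≤ 2 ^ (1 : ℝ) := Real.rpow_le_rpow_of_exponent_le (by norm_num) (by linarith)
        _ = 2 := Real.rpow_one _
    have e3 : 0 ≤ d ^ α := Real.rpow_nonneg hd _
    calc d = d ^ α * d ^ (1 - α) := e1
      _ ≤ d ^ α * 2 := mul_le_mul_of_nonneg_left e2 e3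
      _ = 2 * d ^ α := mul_comm _ _

theorem s2_norm {a z : ℂ} (ha : ‖a‖ = 1) :
    ‖1 - z * (starRingEnd ℂ) a‖ = ‖z - a‖ := by
  have h1 : a * (starRingEnd ℂ) a = 1 := by
    rw [Complex.mul_conj, Complex.normSq_eq_norm_sq, ha]
    norm_num
  have h2 : 1 - z * (starRingEnd ℂ) a = (a - z) * (starRingEnd ℂ) a := by
    rw [sub_mul, h1]
  rw [h2, norm_mul, Complex.norm_conj, ha, mul_one, norm_sub_rev]

theorem s2_re {a z : ℂ} (ha : ‖a‖ = 1) (hz : ‖z‖ ≤ 1) :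
    0 ≤ (1 - z * (starRingEnd ℂ) a).re := by
  have h1 : (z * (starRingEnd ℂ) a).re ≤ 1 := by
    calc (z * (starRingEnd ℂ) a).re ≤ ‖z * (starRingEnd ℂ) a‖ := Complex.re_le_norm _
      _ = ‖z‖ := by rw [norm_mul, Complex.norm_conj, ha, mul_one]
      _ ≤ 1 := hz
  rw [Complex.sub_re, Complex.one_re]
  linarith

theorem s2_P {α : ℝ} (h0 : 0 < α) (h1 : α < 1) {ι : Type} {a : ι → ℂ} {ρ : ι → ℝ} {C0 : ℝ}
    (hc : Conf α a ρ C0) {cc K : ℝ} (hg : Good α cc K a ρ) {z : ℂ} (hz : ‖z‖ ≤ 1)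
    (hzE : z ∉ EE a) (k : ι) :
    (ρ k + ‖z - a k‖) ^ (-α) ≤ (C0 + 2) * K * ‖VV α cc a ρ z‖ := by
  obtain ⟨hcc, hK, hG⟩ := hg
  obtain ⟨-, -, g3, -⟩ := hG z hz hzE
  have hz1 : z ≠ 1 := fun h => hzE (by rw [h]; exact mem_insert _ _)
  have hpos : 0 < ‖1 - z‖ := norm_pos_iff.2 (sub_ne_zero.2 (Ne.symm hz1))
  have hρ := hc.rho_pos k
  have hu : 0 ≤ ‖z - a k‖ := norm_nonneg _
  have hu2 : ‖z - a k‖ ≤ 2 := by
    calc ‖z - a k‖ ≤ ‖z‖ + ‖a k‖ := norm_sub_le _ _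
      _ ≤ 1 + 1 := add_le_add hz (hc.norm_a k).le
      _ = 2 := by norm_num
  have hsum : 0 < ρ k + ‖z - a k‖ := by linarith
  have e1 : ‖1 - z‖ ≤ (C0 + 2) * (ρ k + ‖z - a k‖) ^ α := by
    have f1 : ‖1 - z‖ ≤ ‖1 - a k‖ + ‖z - a k‖ := by
      have : 1 - z = (1 - a k) - (z - a k) := by ring
      rw [this]
      exact norm_sub_le _ _
    have f2 := hc.tau_le k
    have f3 := s2_pow h0 h1 hu hu2
    have f4 : ρ k ^ α ≤ (ρ k + ‖z - a k‖) ^ α :=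
      Real.rpow_le_rpow hρ.le (by linarith) h0.le
    have f5 : ‖z - a k‖ ^ α ≤ (ρ k + ‖z - a k‖) ^ α :=
      Real.rpow_le_rpow hu (by linarith) h0.le
    have f6 : C0 * ρ k ^ α ≤ C0 * (ρ k + ‖z - a k‖) ^ α :=
      mul_le_mul_of_nonneg_left f4 (by linarith [hc.one_le])
    linarith
  have e2 : 0 < (ρ k + ‖z - a k‖) ^ α := Real.rpow_pos_of_pos hsum _
  rw [Real.rpow_neg hsum.le]
  have hC0 : 0 < C0 + 2 := by linarith [hc.one_le]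
  calc ((ρ k + ‖z - a k‖) ^ α)⁻¹ ≤ (C0 + 2) * ‖1 - z‖⁻¹ := by
        rw [inv_le_iff_one_le_mul₀ e2]
        rw [mul_assoc, mul_comm (‖1 - z‖⁻¹), ← mul_assoc, ← div_eq_mul_inv, le_div_iff₀ hpos, one_mul]
        exact e1
    _ ≤ (C0 + 2) * (K * ‖VV α cc a ρ z‖) := mul_le_mul_of_nonneg_left g3 hC0.le
    _ = _ := by ring

theorem leaf_S2 : StmK4 → StmS2 := by
  intro hK4 α h0 h1 ι a ρ C0 hc cc K hg
  obtain ⟨C, hC, hk⟩ := hK4 α h0 h1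
  have hg' := hg
  obtain ⟨hcc, hK, hG⟩ := hg'
  refine ⟨max 1 (2 * K ^ 2 + cc * (C * (K ^ 2 + 2 * (C0 + 2) * K ^ 2))), le_max_left _ _, ?_⟩
  intro z z' hz hz' hzE hzE'
  obtain ⟨s1, -, s3, s4⟩ := hG z hz hzE
  obtain ⟨t1, -, t3, t4⟩ := hG z' hz' hzE'
  set V := ‖VV α cc a ρ z‖ with hV
  set V' := ‖VV α cc a ρ z'‖ with hV'
  set A := ‖z - z'‖ ^ α with hA
  have hA0 : 0 ≤ A := Real.rpow_nonneg (norm_nonneg _) _
  have hV0 : 0 ≤ V := norm_nonneg _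
  have hV0' : 0 ≤ V' := norm_nonneg _
  have hK0 : 0 ≤ K := by linarith
  have hC00 : 0 ≤ C0 + 2 := by linarith [hc.one_le]
  have hC1 : 0 ≤ C := by linarith
  have hz1 : z ≠ 1 := fun h => hzE (by rw [h]; exact mem_insert _ _)
  have hz1' : z' ≠ 1 := fun h => hzE' (by rw [h]; exact mem_insert _ _)
  have hne : ∀ w : ℂ, w ∉ EE a → ∀ k, 1 - w * (starRingEnd ℂ) (a k) ≠ 0 := by
    intro w hw k h
    have h2 : ‖w - a k‖ = 0 := by rw [← s2_norm (hc.norm_a k), h, norm_zero]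
    have h3 : w = a k := sub_eq_zero.1 (norm_eq_zero.1 h2)
    exact hw (by rw [h3]; exact mem_insert_of_mem _ ⟨k, rfl⟩)
  -- the bound for each term
  have hterm : ∀ k, ‖WW α a ρ k z - WW α a ρ k z'‖ ≤
      (C * A * (K * V + (C0 + 2) * K * V)) * ‖WW α a ρ k z'‖ +
        (C * A * ((C0 + 2) * K * V')) * ‖WW α a ρ k z‖ := by
    intro k
    have e1 := hk (ρ k) (hc.rho_pos k) (1 - z * (starRingEnd ℂ) (a k))
      (1 - z' * (starRingEnd ℂ) (a k)) (s2_re (hc.norm_a k) hz) (hne z hzE k)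
      (s2_re (hc.norm_a k) hz') (hne z' hzE' k)
    have e2 : (1 - z * (starRingEnd ℂ) (a k)) - (1 - z' * (starRingEnd ℂ) (a k)) =
        (z' - z) * (starRingEnd ℂ) (a k) := by ring
    have e3 : ‖(1 - z * (starRingEnd ℂ) (a k)) - (1 - z' * (starRingEnd ℂ) (a k))‖ =
        ‖z - z'‖ := by
      rw [e2, norm_mul, Complex.norm_conj, hc.norm_a k, mul_one, norm_sub_rev]
    rw [e3, s2_norm (hc.norm_a k), s2_norm (hc.norm_a k)] at e1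
    have p1 := s2_P h0 h1 hc hg hz hzE k
    have p2 := s2_P h0 h1 hc hg hz' hzE' k
    have w1 : ‖WW α a ρ k z‖ ≤ K * V :=
      (s1.le_tsum k fun j _ => norm_nonneg _).trans s4
    have n1 : 0 ≤ ‖WW α a ρ k z‖ := norm_nonneg _
    have n2 : 0 ≤ ‖WW α a ρ k z'‖ := norm_nonneg _
    change ‖WW α a ρ k z - WW α a ρ k z'‖ ≤ C * A * (‖WW α a ρ k z‖ * ‖WW α a ρ k z'‖ +
      (ρ k + ‖z - a k‖) ^ (-α) * ‖WW α a ρ k z'‖ +
      ‖WW α a ρ k z‖ * (ρ k + ‖z' - a k‖) ^ (-α)) at e1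
    refine e1.trans ?_
    have q1 : ‖WW α a ρ k z‖ * ‖WW α a ρ k z'‖ ≤ K * V * ‖WW α a ρ k z'‖ :=
      mul_le_mul_of_nonneg_right w1 n2
    have q2 : (ρ k + ‖z - a k‖) ^ (-α) * ‖WW α a ρ k z'‖ ≤
        (C0 + 2) * K * V * ‖WW α a ρ k z'‖ := mul_le_mul_of_nonneg_right p1 n2
    have q3 : ‖WW α a ρ k z‖ * (ρ k + ‖z' - a k‖) ^ (-α) ≤
        ‖WW α a ρ k z‖ * ((C0 + 2) * K * V') := mul_le_mul_of_nonneg_left p2 n1
    calc C * A * (‖WW α a ρ k z‖ * ‖WW α a ρ k z'‖ +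
          (ρ k + ‖z - a k‖) ^ (-α) * ‖WW α a ρ k z'‖ +
          ‖WW α a ρ k z‖ * (ρ k + ‖z' - a k‖) ^ (-α))
        ≤ C * A * (K * V * ‖WW α a ρ k z'‖ + (C0 + 2) * K * V * ‖WW α a ρ k z'‖ +
          ‖WW α a ρ k z‖ * ((C0 + 2) * K * V')) :=
          mul_le_mul_of_nonneg_left (by linarith) (mul_nonneg hC1 hA0)
      _ = _ := by ring
  have hsumm : Summable fun k => (C * A * (K * V + (C0 + 2) * K * V)) * ‖WW α a ρ k z'‖ +
        (C * A * ((C0 + 2) * K * V')) * ‖WW α a ρ k z‖ :=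
    (t1.mul_left _).add (s1.mul_left _)
  have hsn : Summable fun k => ‖WW α a ρ k z - WW α a ρ k z'‖ :=
    Summable.of_nonneg_of_le (fun k => norm_nonneg _) hterm hsumm
  have hS : ‖∑' k, WW α a ρ k z - ∑' k, WW α a ρ k z'‖ ≤
      C * A * ((K ^ 2 + 2 * (C0 + 2) * K ^ 2) * (V * V')) := by
    rw [← s1.of_norm.tsum_sub t1.of_norm]
    calc ‖∑' k, (WW α a ρ k z - WW α a ρ k z')‖
        ≤ ∑' k, ‖WW α a ρ k z - WW α a ρ k z'‖ := norm_tsum_le_tsum_norm hsn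
      _ ≤ ∑' k, ((C * A * (K * V + (C0 + 2) * K * V)) * ‖WW α a ρ k z'‖ +
          (C * A * ((C0 + 2) * K * V')) * ‖WW α a ρ k z‖) := hsn.tsum_le_tsum hterm hsumm
      _ = (C * A * (K * V + (C0 + 2) * K * V)) * ∑' k, ‖WW α a ρ k z'‖ +
          (C * A * ((C0 + 2) * K * V')) * ∑' k, ‖WW α a ρ k z‖ := by
        rw [(t1.mul_left _).tsum_add (s1.mul_left _), tsum_mul_left, tsum_mul_left]
      _ ≤ (C * A * (K * V + (C0 + 2) * K * V)) * (K * V') +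
          (C * A * ((C0 + 2) * K * V')) * (K * V) :=
        add_le_add (mul_le_mul_of_nonneg_left t4 (by positivity))
          (mul_le_mul_of_nonneg_left s4 (by positivity))
      _ = _ := by ring
  have hpos : 0 < ‖1 - z‖ := norm_pos_iff.2 (sub_ne_zero.2 (Ne.symm hz1))
  have hpos' : 0 < ‖1 - z'‖ := norm_pos_iff.2 (sub_ne_zero.2 (Ne.symm hz1'))
  have hI : ‖(1 - z)⁻¹ - (1 - z')⁻¹‖ ≤ 2 * A * (K ^ 2 * (V * V')) := by
    have e1 : (1 - z)⁻¹ - (1 - z')⁻¹ = (z - z') * ((1 - z)⁻¹ * (1 - z')⁻¹) := by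
      have u1 : 1 - z ≠ 0 := sub_ne_zero.2 (Ne.symm hz1)
      have u2 : 1 - z' ≠ 0 := sub_ne_zero.2 (Ne.symm hz1')
      field_simp
      ring
    rw [e1, norm_mul, norm_mul, norm_inv, norm_inv]
    have d2 : ‖z - z'‖ ≤ 2 := by
      calc ‖z - z'‖ ≤ ‖z‖ + ‖z'‖ := norm_sub_le _ _
        _ ≤ 1 + 1 := add_le_add hz hz'
        _ = 2 := by norm_num
    have d3 := s2_pow h0 h1 (norm_nonneg (z - z')) d2
    have d4 : ‖1 - z‖⁻¹ * ‖1 - z'‖⁻¹ ≤ (K * V) * (K * V') :=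
      mul_le_mul s3 t3 (by positivity) (by positivity)
    calc ‖z - z'‖ * (‖1 - z‖⁻¹ * ‖1 - z'‖⁻¹) ≤ (2 * A) * ((K * V) * (K * V')) :=
        mul_le_mul d3 d4 (by positivity) (by positivity)
      _ = _ := by ring
  have hfin : ‖VV α cc a ρ z - VV α cc a ρ z'‖ ≤
      (2 * K ^ 2 + cc * (C * (K ^ 2 + 2 * (C0 + 2) * K ^ 2))) * A * (V * V') := by
    have e1 : VV α cc a ρ z - VV α cc a ρ z' = ((1 - z)⁻¹ - (1 - z')⁻¹) +
        (cc : ℂ) * (∑' k, WW α a ρ k z - ∑' k, WW α a ρ k z') := by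
      unfold VV
      ring
    rw [e1]
    calc ‖((1 - z)⁻¹ - (1 - z')⁻¹) + (cc : ℂ) * (∑' k, WW α a ρ k z - ∑' k, WW α a ρ k z')‖
        ≤ ‖(1 - z)⁻¹ - (1 - z')⁻¹‖ +
          ‖(cc : ℂ) * (∑' k, WW α a ρ k z - ∑' k, WW α a ρ k z')‖ := norm_add_le _ _
      _ = ‖(1 - z)⁻¹ - (1 - z')⁻¹‖ + cc * ‖∑' k, WW α a ρ k z - ∑' k, WW α a ρ k z'‖ := by
        rw [norm_mul, Complex.norm_real, Real.norm_of_nonneg hcc.le]
      _ ≤ 2 * A * (K ^ 2 * (V * V')) +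
          cc * (C * A * ((K ^ 2 + 2 * (C0 + 2) * K ^ 2) * (V * V'))) :=
        add_le_add hI (mul_le_mul_of_nonneg_left hS hcc.le)
      _ = _ := by ring
  refine hfin.trans ?_
  have h5 : 0 ≤ A * (V * V') := by positivity
  calc (2 * K ^ 2 + cc * (C * (K ^ 2 + 2 * (C0 + 2) * K ^ 2))) * A * (V * V')
      = (2 * K ^ 2 + cc * (C * (K ^ 2 + 2 * (C0 + 2) * K ^ 2))) * (A * (V * V')) := by ring
    _ ≤ max 1 (2 * K ^ 2 + cc * (C * (K ^ 2 + 2 * (C0 + 2) * K ^ 2))) * (A * (V * V')) :=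
      mul_le_mul_of_nonneg_right (le_max_right _ _) h5
    _ = _ := by ring

end PG
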